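import Pool.Agent.W262.TW.Stm

set_option autoImplicit false

namespace Pool.Agent.W311.TW

open Finset Polynomial
open Pool.Agent.W262.TW

/-- the `z`-rough part of a squarefree integer -/
noncomputable def Dz (z : ℕ) (s : ℤ) : ℕ := ∏ p ∈ s.natAbs.primeFactors.filter (fun p => z < p), p

theorem dvd_Dz {z : ℕ} {s : ℤ} (hs : Squarefree s) {p : ℕ} (hp : p.Prime) :
    p ∣ Dz z s ↔ z < p ∧ (p : ℤ) ∣ s := by
  have hs0 : s.natAbs ≠ 0 := by
    intro h
    rw [Int.natAbs_eq_zero] at h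
    exact hs.ne_zero h
  unfold Dz
  rw [Prime.dvd_finset_prod_iff hp.prime]
  constructor
  · rintro ⟨q, hq, hpq⟩
    rw [Finset.mem_filter, Nat.mem_primeFactors] at hq
    have : p = q := (Nat.prime_dvd_prime_iff_eq hp hq.1.1).mp hpq
    subst this
    exact ⟨hq.2, Int.natCast_dvd.mpr hq.1.2.1⟩
  · rintro ⟨h1, h2⟩
    refine ⟨p, ?_, dvd_rfl⟩
    rw [Finset.mem_filter, Nat.mem_primeFactors]
    exact ⟨⟨hp, Int.natCast_dvd.mp h2, hs0⟩, h1⟩

theorem Dz_sqf {z : ℕ} {s : ℤ} (hs : Squarefree s) : Rg z (Dz z s) := by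
  refine ⟨?_, fun p hp h => ((dvd_Dz hs hp).mp h).1⟩
  have h1 : Squarefree s.natAbs := Int.squarefree_natAbs.mpr hs
  have h2 : Dz z s ∣ s.natAbs := by
    conv_rhs => rw [← Nat.prod_primeFactors_of_squarefree h1]
    exact Finset.prod_dvd_prod_of_subset _ _ _ (Finset.filter_subset _ _)
  exact h1.squarefree_of_dvd h2

theorem Dz_pos {z : ℕ} {s : ℤ} : 0 < Dz z s := by
  unfold Dz
  apply Finset.prod_pos
  intro p hp
  rw [Finset.mem_filter, Nat.mem_primeFactors] at hp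
  exact hp.1.1.pos

theorem Dz_le {z : ℕ} {s : ℤ} (hs : Squarefree s) : Dz z s ≤ s.natAbs := by
  have h1 : Squarefree s.natAbs := Int.squarefree_natAbs.mpr hs
  have h2 : Dz z s ∣ s.natAbs := by
    conv_rhs => rw [← Nat.prod_primeFactors_of_squarefree h1]
    exact Finset.prod_dvd_prod_of_subset _ _ _ (Finset.filter_subset _ _)
  exact Nat.le_of_dvd (Nat.pos_of_ne_zero h1.ne_zero) h2

theorem exists_EE {z : ℕ} {s : ℤ} (hs : Squarefree s) : ∃ κ ∈ EE z, s = κ * (Dz z s : ℤ) := by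
  have h1 : Squarefree s.natAbs := Int.squarefree_natAbs.mpr hs
  have h2 : s.natAbs = (∏ p ∈ s.natAbs.primeFactors.filter (fun p => ¬ z < p), p) * Dz z s := by
    unfold Dz
    rw [mul_comm, Finset.prod_filter_mul_prod_filter_not, Nat.prod_primeFactors_of_squarefree h1]
  set E := ∏ p ∈ s.natAbs.primeFactors.filter (fun p => ¬ z < p), p with hE
  have h3 : E ∈ (primorial z).divisors := by
    rw [Nat.mem_divisors]
    refine ⟨?_, (primorial_pos z).ne'⟩
    unfold primorial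
    rw [hE]
    apply Finset.prod_dvd_prod_of_subset
    intro p hp
    rw [Finset.mem_filter, Nat.mem_primeFactors] at hp
    rw [Finset.mem_filter, Finset.mem_range]
    exact ⟨by omega, hp.1.1⟩
  rcases Int.natAbs_eq s with h | h
  · refine ⟨(E : ℤ), ?_, ?_⟩
    · unfold EE
      rw [Finset.mem_union]
      left
      exact Finset.mem_image_of_mem _ h3
    · conv_lhs => rw [h, h2]
      push_cast
      ring
  · refine ⟨-(E : ℤ), ?_, ?_⟩
    · unfold EE
      rw [Finset.mem_union]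
      right
      exact Finset.mem_image_of_mem (fun n : ℕ => -(n : ℤ)) h3
    · conv_lhs => rw [h, h2]
      push_cast
      ring

theorem exists_sqf (n : ℤ) (hn : n ≠ 0) : ∃ s t : ℤ, t ≠ 0 ∧ Squarefree s ∧ n = s * t ^ 2 := by
  obtain ⟨a, b, hab, ha⟩ := Nat.sq_mul_squarefree n.natAbs
  have hb : b ≠ 0 := by
    rintro rfl
    apply hn
    rw [← Int.natAbs_eq_zero, ← hab]
    simp
  rcases Int.natAbs_eq n with h | h
  · refine ⟨(a : ℤ), (b : ℤ), by exact_mod_cast hb, ?_, ?_⟩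
    · rw [← Int.squarefree_natAbs]; simpa using ha
    · rw [h, ← hab]; push_cast; ring
  · refine ⟨-(a : ℤ), (b : ℤ), by exact_mod_cast hb, ?_, ?_⟩
    · rw [← Int.squarefree_natAbs]; simpa using ha
    · rw [h, ← hab]; push_cast; ring

theorem red3 (h : LOC3) : RED3 := by
  classical
  intro K _ _ f hf1 hf2 hf3
  obtain ⟨z0, hz0⟩ := h K f hf1 hf2 hf3
  refine ⟨z0, fun z hz X => ?_⟩
  set G : (K → ℤ) → Finset (K → ℕ) := fun κ =>
    (Fintype.piFinset (fun _ : K => Icc 1 X)).filter (fun D => (∀ i, Rg z (D i) ∧ 0 < D i) ∧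
    (∀ i j, i ≠ j → (D i).Coprime (D j)) ∧ ∏ i, D i ≤ X ∧
    ∀ i, ∀ p ∈ (D i).primeFactors, ngs (fun k => κ k * D k) i p ∈ Th f i p) with hG
  set Tt : Finset (ℤ × (Σ _ : K → ℤ, K → ℕ)) :=
    (EE z) ×ˢ ((Fintype.piFinset (fun _ : K => EE z)).sigma G) with hTt
  have hcard : Tt.card = (EE z).card * ∑ κ ∈ Fintype.piFinset (fun _ : K => EE z), cnt z X 0 κ (Th f) := by
    rw [hTt, Finset.card_product, Finset.card_sigma]
    rfl
  rw [← hcard]
  have hsub : {d : ℤ | d.natAbs ≤ X ∧ Squarefree d ∧ Sel f d} ⊆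
      ((Tt.image (fun x => x.1 * ((∏ k, x.2.2 k : ℕ) : ℤ)) : Finset ℤ) : Set ℤ) := by
    rintro d ⟨hdX, hd, δ, hδ0, hsq, -, hloc⟩
    choose s t ht hs hst using fun k => exists_sqf (δ k) (hδ0 k)
    have hHas : ∀ (p : ℕ) [Fact p.Prime], HasPt f s ℚ_[p] := by
      intro p _
      obtain ⟨x, w, hxw, hy⟩ := hloc p
      refine ⟨x, w, hxw, fun k => ?_⟩
      obtain ⟨y, hy⟩ := hy k
      refine ⟨(t k : ℚ_[p]) * y, ?_⟩
      rw [hy, hst k]
      push_cast
      ring
    obtain ⟨u, hu⟩ : IsSquare (d * ∏ k, s k) := by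
      obtain ⟨r, hr⟩ := hsq
      have hT : (∏ k, t k) ≠ 0 := Finset.prod_ne_zero_iff.mpr fun k _ => ht k
      have h1 : d * ∏ k, δ k = (d * ∏ k, s k) * (∏ k, t k) ^ 2 := by
        rw [Finset.prod_congr rfl (fun k _ => hst k), Finset.prod_mul_distrib, Finset.prod_pow]
        ring
      rw [h1] at hr
      have h2 : (∏ k, t k) ∣ r := by
        rw [← Int.pow_dvd_pow_iff (n := 2) (by norm_num)]
        exact ⟨d * ∏ k, s k, by rw [sq r, ← hr]; ring⟩
      obtain ⟨v, hv⟩ := h2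
      refine ⟨v, ?_⟩
      have h3 : (∏ k, t k) ^ 2 ≠ 0 := pow_ne_zero _ hT
      apply mul_right_cancel₀ h3
      rw [hr, hv]
      ring
    -- local information
    have hL : ∀ p : ℕ, p.Prime → z < p → ∀ i, (p : ℤ) ∣ s i →
        (∀ k, k ≠ i → ¬ (p : ℤ) ∣ s k) ∧ ngs s i p ∈ Th f i p := by
      intro p hp hzp i hi
      haveI : Fact p.Prime := ⟨hp⟩
      exact hz0 p (by omega) s hs (hHas p) i hi
    have hdiv : ∀ p : ℕ, p.Prime → z < p → ((p : ℤ) ∣ d ↔ ∃ k, (p : ℤ) ∣ s k) := by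
      intro p hp hzp
      have hpZ : _root_.Prime (p : ℤ) := Nat.prime_iff_prime_int.mp hp
      have hpu : (p : ℤ) ∣ d * ∏ k, s k → (p : ℤ) ^ 2 ∣ d * ∏ k, s k := by
        intro h1
        rw [hu] at h1 ⊢
        have : (p : ℤ) ∣ u := by
          rcases hpZ.dvd_or_dvd h1 with h | h <;> exact h
        rw [← sq]
        exact pow_dvd_pow_of_dvd this 2
      constructor
      · intro h1
        by_contra h2
        push Not at h2
        have h3 := hpu (h1.mul_right _)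
        have h4 : ¬ (p : ℤ) ∣ ∏ k, s k := by
          rw [Prime.dvd_finset_prod_iff hpZ]
          rintro ⟨k, -, hk⟩
          exact h2 k hk
        have h5 : (p : ℤ) ^ 2 ∣ d := by
          have hc : IsCoprime ((p : ℤ) ^ 2) (∏ k, s k) :=
            IsCoprime.pow_left ((Prime.coprime_iff_not_dvd hpZ).mpr h4)
          exact hc.dvd_of_dvd_mul_right h3
        exact hpZ.not_unit (hd _ (by rw [← sq]; exact h5))
      · rintro ⟨k, hk⟩
        by_contra h2
        have h3 := hpu (Dvd.dvd.mul_left (hk.trans (Finset.dvd_prod_of_mem s (Finset.mem_univ k))) _)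
        have hc : IsCoprime ((p : ℤ) ^ 2) d :=
          IsCoprime.pow_left ((Prime.coprime_iff_not_dvd hpZ).mpr h2)
        have h4 : (p : ℤ) ^ 2 ∣ ∏ k, s k := hc.dvd_of_dvd_mul_left h3
        rw [← Finset.mul_prod_erase _ _ (Finset.mem_univ k)] at h4
        have h5 : ¬ (p : ℤ) ∣ ∏ j ∈ Finset.univ.erase k, s j := by
          rw [Prime.dvd_finset_prod_iff hpZ]
          rintro ⟨j, hj, hj'⟩
          exact (hL p hp hzp k hk).1 j (Finset.ne_of_mem_erase hj) hj'
        have hc' : IsCoprime ((p : ℤ) ^ 2) (∏ j ∈ Finset.univ.erase k, s j) :=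
          IsCoprime.pow_left ((Prime.coprime_iff_not_dvd hpZ).mpr h5)
        have h6 : (p : ℤ) ^ 2 ∣ s k := hc'.dvd_of_dvd_mul_right h4
        exact hpZ.not_unit (hs k _ (by rw [← sq]; exact h6))
    have hcop : ∀ i j, i ≠ j → (Dz z (s i)).Coprime (Dz z (s j)) := by
      intro i j hij
      rw [Nat.coprime_iff_gcd_eq_one] 
      by_contra hg
      obtain ⟨p, hp, hpd⟩ := Nat.exists_prime_and_dvd hg
      have h1 := (dvd_Dz (hs i) hp).mp (hpd.trans (Nat.gcd_dvd_left _ _))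
      have h2 := (dvd_Dz (hs j) hp).mp (hpd.trans (Nat.gcd_dvd_right _ _))
      exact (hL p hp h1.1 i h1.2).1 j (Ne.symm hij) h2.2
    have hprod : ∏ k, Dz z (s k) = Dz z d := by
      have hs0 : ∀ k, (s k).natAbs ≠ 0 := fun k => by
        rw [Int.natAbs_ne_zero]; exact (hs k).ne_zero
      have hd0 : d.natAbs ≠ 0 := by
        rw [Int.natAbs_ne_zero]; exact hd.ne_zero
      unfold Dz
      rw [← Finset.prod_biUnion]
      · apply Finset.prod_congr _ (fun _ _ => rfl)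
        ext p
        simp only [Finset.mem_biUnion, Finset.mem_univ, true_and, Finset.mem_filter,
          Nat.mem_primeFactors]
        constructor
        · rintro ⟨k, ⟨hp, hpk, -⟩, hzp⟩
          exact ⟨⟨hp, Int.natCast_dvd.mp ((hdiv p hp hzp).mpr ⟨k, Int.natCast_dvd.mpr hpk⟩), hd0⟩, hzp⟩
        · rintro ⟨⟨hp, hpd, -⟩, hzp⟩
          obtain ⟨k, hk⟩ := (hdiv p hp hzp).mp (Int.natCast_dvd.mpr hpd)
          exact ⟨k, ⟨hp, Int.natCast_dvd.mp hk, hs0 k⟩, hzp⟩
      · intro i _ j _ hij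
        rw [Function.onFun, Finset.disjoint_left]
        intro p hp hp'
        rw [Finset.mem_filter, Nat.mem_primeFactors] at hp hp'
        exact (hL p hp.1.1 hp.2 i (Int.natCast_dvd.mpr hp.1.2.1)).1 j (Ne.symm hij)
          (Int.natCast_dvd.mpr hp'.1.2.1)
    choose κ hκ hκs using fun k => exists_EE (z := z) (hs k)
    obtain ⟨d0, hd0, hdd⟩ := exists_EE (z := z) hd
    have hPX : ∏ k, Dz z (s k) ≤ X := by
      rw [hprod]
      exact (Dz_le hd).trans hdX
    rw [Finset.mem_coe, Finset.mem_image]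
    refine ⟨(d0, ⟨κ, fun k => Dz z (s k)⟩), ?_, ?_⟩
    · rw [hTt, Finset.mem_product, Finset.mem_sigma]
      refine ⟨hd0, Fintype.mem_piFinset.mpr hκ, ?_⟩
      rw [hG]
      simp only [Finset.mem_filter, Fintype.mem_piFinset, Finset.mem_Icc]
      refine ⟨fun k => ⟨Dz_pos, ?_⟩, fun i => ⟨Dz_sqf (hs i), Dz_pos⟩, hcop, hPX, ?_⟩
      · refine le_trans ?_ hPX
        exact Finset.single_le_prod' (f := fun k => Dz z (s k)) (fun k _ => Dz_pos) (Finset.mem_univ k)
      · intro i p hp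
        have hpp := Nat.prime_of_mem_primeFactors hp
        have h1 := (dvd_Dz (hs i) hpp).mp (Nat.dvd_of_mem_primeFactors hp)
        have h2 := (hL p hpp h1.1 i h1.2).2
        have h3 : (fun k => κ k * (Dz z (s k) : ℤ)) = s := by
          funext k
          exact (hκs k).symm
        rw [h3]
        exact h2
    · show d0 * ((∏ k, Dz z (s k) : ℕ) : ℤ) = d
      rw [hprod]
      exact hdd.symm
  calc _ ≤ ((Tt.image (fun x => x.1 * ((∏ k, x.2.2 k : ℕ) : ℤ)) : Finset ℤ) : Set ℤ).ncard :=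
        Set.ncard_le_ncard hsub (Finset.finite_toSet _)
    _ = (Tt.image (fun x => x.1 * ((∏ k, x.2.2 k : ℕ) : ℤ)) : Finset ℤ).card := Set.ncard_coe_finset _
    _ ≤ Tt.card := Finset.card_image_le

end Pool.Agent.W311.TW
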